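import Pool.Agent.Lib.MP_bacaed_al.SixE
import Pool.Agent.Lib.MP_bacaed_al.AltSharp
import Pool.Agent.Lib.MP_bacaed_al.Exist

/-!
Finite groups with an alternating composition factor.
-/

namespace Pool.Agent.Results.MP_bacaed_al.Alternating

open Pool.Agent.Lib.MP_bacaed_al

theorem bound {n : ℕ} (hn : 5 ≤ n) {G : Type} [Group G] [Finite G]
    (hG : HasFactor (alternatingGroup (Fin n)) G) (k : ℕ) :
    (Odd k → rho k G ≤ rho k (alternatingGroup (Fin n))) ∧ (k.Coprime 6 → rho k G ≤ 35 / 72) ∧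
      (k = 3 → rho k G ≤ 7 / 20) ∧ (k = 4 → rho k G ≤ 7 / 15) := by
  refine ⟨fun hk => rho_le_alt hn hk hG, fun hk => ?_, ?_, ?_⟩
  · have hodd : Odd k := by
      rw [← Nat.not_even_iff_odd]
      intro h
      have h2 : 2 ∣ Nat.gcd k 6 := Nat.dvd_gcd h.two_dvd (by decide)
      rw [hk] at h2
      exact absurd h2 (by decide)
    exact (rho_le_alt hn hodd hG).trans (rho_alt_coprime hn hk.symm)
  · rintro rfl
    exact (rho_le_alt hn (by decide) hG).trans (rho_alt_three hn)
  · rintro rfl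
    exact rho_four_all hn hG

theorem hasFactor_congr {T T' G : Type} [Group T] [Group T'] [Group G] (e : T ≃* T')
    (h : HasFactor T G) : HasFactor T' G := by
  obtain ⟨Q, _, f, M, S, hf, hM, hSM, hS, ⟨e'⟩⟩ := h
  exact ⟨Q, inferInstance, f, M, S, hf, hM, hSM, hS, ⟨e'.trans e⟩⟩

/-- Finite groups with an alternating composition factor: bounds for the proportion of the elements
of order dividing `k`; the extremal case for `k` prime to `6`; and if `eps k` exceeds `35/72`, then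
it is approached by cosets of non-alternating simple groups. -/
theorem result :
    (∀ n : ℕ, 5 ≤ n → ∀ (G : Type) [Group G] [Finite G], HasFactor (alternatingGroup (Fin n)) G →
      ∀ k : ℕ, (Odd k → rho k G ≤ rho k (alternatingGroup (Fin n))) ∧
        (k.Coprime 6 → rho k G ≤ 35 / 72) ∧ (k = 3 → rho k G ≤ 7 / 20) ∧
        (k = 4 → rho k G ≤ 7 / 15)) ∧
    rho 35 (alternatingGroup (Fin 7)) = 35 / 72 ∧
    (∀ k : ℕ, (k = 3 ∨ k = 4 ∨ k.Coprime 6) → 35 / 72 < eps k → ∀ c : ℝ, c < eps k →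
      ∃ (T : Type) (_ : Group T) (ζ : MulAut T), Finite T ∧ IsSimpleGroup T ∧
        (¬ ∀ a b : T, a * b = b * a) ∧
        (∀ n : ℕ, 5 ≤ n → IsEmpty (T ≃* alternatingGroup (Fin n))) ∧ c < cosetRho k T ζ) := by
  refine ⟨fun n hn G _ _ hG k => bound hn hG k, rho_alt_seven, ?_⟩
  intro k hk hε c hc
  have hne : {x : ℝ | ∃ (G : Type) (_ : Group G), Finite G ∧ ¬ Group.IsSolvable G ∧
      rho k G = x}.Nonempty := by
    by_contra hemp
    rw [Set.not_nonempty_iff_eq_empty] at hemp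
    rw [eps, hemp, Real.sSup_empty] at hε
    norm_num at hε
  obtain ⟨x, ⟨G, _, hfin, hG, rfl⟩, hx⟩ := exists_lt_of_lt_csSup hne (max_lt hε hc)
  obtain ⟨T, _, hTfin, hTs, hT, hF⟩ := exists_factor _ G rfl hG
  obtain ⟨ζ, hζ⟩ := rho_le_cosetRho hF k
  refine ⟨T, inferInstance, ζ, hTfin, hTs, hT, fun n hn => ⟨fun e => ?_⟩,
    lt_of_lt_of_le (lt_of_le_of_lt (le_max_right _ _) hx) hζ⟩
  have hb := bound hn (hasFactor_congr e hF) k
  have h1 : rho k G ≤ 35 / 72 := by
    rcases hk with rfl | rfl | hk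
    · exact (hb.2.2.1 rfl).trans (by norm_num)
    · exact (hb.2.2.2 rfl).trans (by norm_num)
    · exact hb.2.1 hk
  have h2 : 35 / 72 < rho k G := lt_of_le_of_lt (le_max_left _ _) hx
  linarith

end Pool.Agent.Results.MP_bacaed_al.Alternating
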