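import Pool.Agent.Lib.MP_bacaed_al.FixA

/-!
Finite groups with a given nonabelian composition factor.
-/

namespace Pool.Agent.Results.MP_bacaed_al.FixedFactor

open Pool.Agent.Lib.MP_bacaed_al

/-- Let `T` be a finite nonabelian simple group and let `k` be a natural number. If `k` is prime to the
order of the outer automorphism group of `T`, then among the finite groups `G` which have `T` as a
factor, the proportion of the elements of order dividing `k` is greatest for `G = T`. If `k` is odd
and `k` is prime to the order of the outer automorphism group of `T` or `2 φ(k) > k`, then the supremum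
of this proportion over the finite groups `G` which have `T` as a factor is not one half. -/
theorem result (T : Type) [Group T] [Finite T] [IsSimpleGroup T]
    (hT : ¬ ∀ a b : T, a * b = b * a) (k : ℕ) :
    (k.Coprime (MulAut.conj : T →* MulAut T).range.index →
      IsGreatest {x : ℝ | ∃ (G : Type) (_ : Group G), Finite G ∧ HasFactor T G ∧ rho k G = x}
        (rho k T)) ∧
    (Odd k → (k.Coprime (MulAut.conj : T →* MulAut T).range.index ∨ k < 2 * Nat.totient k) →
      sSup {x : ℝ | ∃ (G : Type) (_ : Group G), Finite G ∧ HasFactor T G ∧ rho k G = x} ≠ 1 / 2) := by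
  have hTpos : (0 : ℝ) < Nat.card T := by exact_mod_cast Nat.card_pos
  have hgr : k.Coprime (MulAut.conj : T →* MulAut T).range.index →
      IsGreatest {x : ℝ | ∃ (G : Type) (_ : Group G), Finite G ∧ HasFactor T G ∧ rho k G = x}
        (rho k T) := by
    intro hk
    refine ⟨⟨T, inferInstance, inferInstance, ?_, rfl⟩, ?_⟩
    · exact ⟨T, inferInstance, MonoidHom.id T, ⊤, ⊤, Function.surjective_id, inferInstance, le_rfl,
        fun _ _ _ _ => Subgroup.mem_top _, ⟨Subgroup.topEquiv⟩⟩
    · rintro x ⟨G, _, hfin, hF, rfl⟩
      obtain ⟨ζ, hζ⟩ := rho_le_cosetRho hF k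
      refine hζ.trans ?_
      rw [cosetRho_eq, rho_eq]
      refine div_le_div_of_nonneg_right ?_ hTpos.le
      exact_mod_cast cnt_coprime hT k hk ζ
  refine ⟨hgr, ?_⟩
  rintro hodd (hk | hk)
  · rw [(hgr hk).csSup_eq]
    intro h
    rw [rho_eq, div_eq_iff hTpos.ne'] at h
    have h1 : Nat.card T = 2 * Nat.card {t : T // t ^ k = 1} := by
      have : (Nat.card T : ℝ) = 2 * (Nat.card {t : T // t ^ k = 1} : ℝ) := by linarith
      exact_mod_cast this
    have hodd' := odd_card (G := T) hodd
    obtain ⟨φ, hφ⟩ := exists_sign hodd' h1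
    rcases (inferInstance : φ.ker.Normal).eq_bot_or_eq_top with h2 | h2
    · rw [h2, Subgroup.card_bot] at hφ
      rw [← hφ, mul_one] at h1
      haveI : Fact (Nat.Prime 2) := ⟨Nat.prime_two⟩
      haveI := isCyclic_of_prime_card h1
      apply hT
      intro a b
      exact (IsCyclic.commGroup (α := T)).mul_comm a b
    · rw [h2, Subgroup.card_top] at hφ
      have h3 : 0 < Nat.card T := Nat.card_pos
      omega
  · exact vals_ne_half hT hodd hk

end Pool.Agent.Results.MP_bacaed_al.FixedFactor
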