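import Pool.Agent.Lib.MP_bacaed_al.ManyD

/-!
If `eps k = 1/2`: for odd `k` the value is not attained, and if it is not attained, then there are
arbitrarily large simple groups with coset proportions near `1/2` or above.
-/

namespace Pool.Agent.Results.MP_bacaed_al.OddReduction

open Pool.Agent.Lib.MP_bacaed_al

/-- Suppose that `eps k = 1/2`. If `k` is odd, then no finite non-soluble group attains the supremum.
If no finite non-soluble group attains the supremum, then for every `n` there are a finite nonabelian
simple group `T` and an automorphism `ζ` of `T` such that more than the proportion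
`1/2 - 1/(2(n+1))` of the coset `Inn(T) ζ` has order dividing `k`, where `T` has more than `n`
elements, or `2 φ(k) < k` and for an automorphism `ξ` which is not inner all the elements of the coset
`Inn(T) ξ` have order dividing `k`. -/
theorem result (k : ℕ) (hk : 0 < k) (h : eps k = 1 / 2) :
    (Odd k → ∀ (G : Type) [Group G] [Finite G], ¬ Group.IsSolvable G → rho k G < 1 / 2) ∧
    ((∀ (G : Type) [Group G] [Finite G], ¬ Group.IsSolvable G → rho k G ≠ 1 / 2) →
      ∀ n : ℕ, ∃ (T : Type) (_ : Group T) (ζ : MulAut T), Finite T ∧ IsSimpleGroup T ∧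
        (¬ ∀ a b : T, a * b = b * a) ∧ 1 / 2 - 1 / (2 * ((n : ℝ) + 1)) < cosetRho k T ζ ∧
        (n < Nat.card T ∨ (2 * Nat.totient k < k ∧ ∃ ξ : MulAut T,
          ξ ∉ (MulAut.conj : T →* MulAut T).range ∧
          ∀ t : T, orderOf (MulAut.conj t * ξ) ∣ k))) := by
  refine ⟨fun hodd G _ _ hG => not_attained hodd h G hG, fun hne n => ?_⟩
  exact unbounded hk h (fun G _ _ hG => lt_of_le_of_ne (h ▸ le_eps hG) (hne G hG)) n

end Pool.Agent.Results.MP_bacaed_al.OddReduction
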