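import Pool.Agent.Lib.MP_bacaed_al.Main
import Pool.Agent.Lib.MP_bacaed_al.Defs

/-!
Groups `PSL(2,F)` in which more than half of the elements have order dividing `k`.
-/

namespace Pool.Agent.Results.MP_bacaed_al.PSL2Family

open Matrix Matrix.SpecialLinearGroup
open scoped MatrixGroups
open Pool.Agent.Lib.MP_bacaed_al (rho eps le_eps)

/-- Fibres of the quotient map have equal size. -/
theorem card_quot {G : Type} [Group G] [Finite G] (Z : Subgroup G) [Z.Normal] (k : ℕ) :
    Nat.card {g : G // g ^ k ∈ Z} * Nat.card (G ⧸ Z) =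
      Nat.card {x : G ⧸ Z // orderOf x ∣ k} * Nat.card G := by
  have e : {g : G // g ^ k ∈ Z} ≃ Z × {x : G ⧸ Z // orderOf x ∣ k} := by
    refine Equiv.trans ?_ (QuotientGroup.preimageMkEquivSubgroupProdSet Z
      {x : G ⧸ Z | orderOf x ∣ k})
    refine Equiv.subtypeEquivRight (fun g => ?_)
    change g ^ k ∈ Z ↔ orderOf (g : G ⧸ Z) ∣ k
    rw [orderOf_dvd_iff_pow_eq_one, ← QuotientGroup.mk_pow, QuotientGroup.eq_one_iff]
  rw [Nat.card_congr e, Nat.card_prod, Subgroup.card_eq_card_quotient_mul_card_subgroup Z]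
  ring

theorem not_solvable (F : Type) [Field F] (hF : 4 ≤ Nat.card F) :
    ¬ Group.IsSolvable PSL(2, F) := by
  intro h
  haveI := Matrix.ProjectiveSpecialLinearGroup.rank_two_simple hF
  have hc := IsSimpleGroup.comm_iff_isSolvable.2 h
  have h0 : ∃ a : F, a ≠ 0 ∧ a ^ 2 ≠ 1 := by
    haveI : Finite F := (Nat.card_pos_iff.1 (by omega)).2
    obtain ⟨x, hx⟩ : IsCyclic Fˣ := by infer_instance
    refine ⟨x, Units.ne_zero x, fun h ↦ ?_⟩
    have h1 : Nat.card F = Nat.card Fˣ + 1 := Nat.card_eq_card_units_add_one F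
    have h2 : orderOf x = Nat.card Fˣ := orderOf_eq_card_of_forall_mem_zpowers hx
    have h3 : orderOf x ≤ 2 := orderOf_le_of_pow_eq_one zero_lt_two (Units.ext (by simpa using h))
    omega
  have h1 := SL2Simple.PSL_commutator_eq_top h0
  have h2 : commutator PSL(2, F) = ⊥ := by
    rw [commutator_eq_bot_iff_center_eq_top, Subgroup.eq_top_iff']
    intro x
    rw [Subgroup.mem_center_iff]
    exact fun y => hc y x
  rw [h1] at h2
  exact top_ne_bot h2

/-- Let `F` be a finite field with `q ≥ 4` elements and let `s` be `q - 1` or `q + 1`. Suppose that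
`k` is a multiple of `s / gcd(2, q - 1)` and of an odd prime `r` which divides the order of `PSL(2,F)`
but not `s`. Then more than half of the elements of the non-soluble group `PSL(2,F)` have order
dividing `k`, so that `eps k > 1/2`. -/
theorem result (F : Type) [Field F] [Finite F] (hq : 4 ≤ Nat.card F) (s r k : ℕ)
    (hs : s = Nat.card F - 1 ∨ s = Nat.card F + 1)
    (hsk : s / Nat.gcd 2 (Nat.card F - 1) ∣ k) (hr : r.Prime) (hr2 : r ≠ 2) (hrk : r ∣ k)
    (hrG : r ∣ Nat.card PSL(2, F)) (hrs : ¬ r ∣ s) :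
    ¬ Group.IsSolvable PSL(2, F) ∧ 1 / 2 < rho k PSL(2, F) ∧ 1 / 2 < eps k := by
  classical
  haveI : Fintype F := Fintype.ofFinite F
  have hns := not_solvable F hq
  have hSL : Nat.card SL(2, F) =
      Fintype.card F * ((Fintype.card F - 1) * (Fintype.card F + 1)) := by
    letI : Fintype SL(2, F) := Fintype.ofFinite _
    rw [Nat.card_eq_fintype_card]
    have := Pool.Agent.Lib.MP_bacaed_al.card_sl (F := F)
    obtain ⟨m, hm⟩ : ∃ m, Fintype.card F = m + 1 :=
      ⟨Fintype.card F - 1, by have := Fintype.card_pos (α := F); omega⟩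
    refine (Eq.trans ?_ this).trans ?_
    · congr 1
    · rw [hm, Nat.add_sub_cancel]; ring
  have hrG' : r ∣ Fintype.card F * ((Fintype.card F - 1) * (Fintype.card F + 1)) := by
    rw [← hSL, Subgroup.card_eq_card_quotient_mul_card_subgroup (Subgroup.center SL(2, F))]
    exact Dvd.dvd.mul_right hrG _
  rw [Nat.card_eq_fintype_card] at hq hs hsk
  have hmain := Pool.Agent.Lib.MP_bacaed_al.main_count hq s r k hs hsk hr hr2 hrk hrG' hrs
  have hquot := card_quot (Subgroup.center SL(2, F)) k
  have hfin : Finite PSL(2, F) := inferInstance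
  have hrho : (1 / 2 : ℝ) < rho k PSL(2, F) := by
    have h1 : (0 : ℝ) < Nat.card PSL(2, F) := by exact_mod_cast Nat.card_pos
    have h2 : 0 < Nat.card SL(2, F) := Nat.card_pos
    have h2' : 0 < Nat.card PSL(2, F) := Nat.card_pos
    have h3 : Nat.card PSL(2, F) < 2 * Nat.card {x : PSL(2, F) // orderOf x ∣ k} := by
      by_contra hcon
      push Not at hcon
      have h4 : 2 * Nat.card {x : PSL(2, F) // orderOf x ∣ k} * Nat.card SL(2, F) ≤
          Nat.card PSL(2, F) * Nat.card SL(2, F) := Nat.mul_le_mul_right _ hcon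
      have h5 : Nat.card SL(2, F) * Nat.card PSL(2, F) <
          2 * Nat.card {g : SL(2, F) // g ^ k ∈ Subgroup.center SL(2, F)} *
            Nat.card PSL(2, F) := Nat.mul_lt_mul_of_pos_right hmain h2'
      have h6 : 2 * Nat.card {g : SL(2, F) // g ^ k ∈ Subgroup.center SL(2, F)} *
            Nat.card PSL(2, F) =
          2 * Nat.card {x : PSL(2, F) // orderOf x ∣ k} * Nat.card SL(2, F) := by
        rw [mul_assoc, hquot, mul_assoc]
      rw [h6, mul_comm (Nat.card SL(2, F))] at h5
      omega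
    rw [rho, lt_div_iff₀ h1]
    have h7 : (Nat.card PSL(2, F) : ℝ) < 2 * (Nat.card {x : PSL(2, F) // orderOf x ∣ k} : ℝ) := by
      exact_mod_cast h3
    linarith
  exact ⟨hns, hrho, lt_of_lt_of_le hrho (le_eps hns)⟩

end Pool.Agent.Results.MP_bacaed_al.PSL2Family
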